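import Pool.Agent.P.MP_9167e9_an.StG

/-! NF: normal form facts for the lamp group `N`. -/

noncomputable section
open scoped Classical

namespace Pool.Agent.P.MP_9167e9_an

namespace Nf

section Gen

variable {L : Type} {adj : L → L → Prop} {H : Type} [AddCommGroup H]
  {w : PreWS (GP adj H) (Wall adj H)}

theorem lmp_mem {T : Set L} {f : L} (hf : f ∈ T) (a : H) : lmp adj f a ∈ Par adj H T :=
  Subgroup.subset_closure ⟨f, hf, a, rfl⟩

theorem self_mem (T : Set L) (q : GP adj H) : q ∈ pc adj T q := by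
  change q * q⁻¹ ∈ Par adj H T
  rw [mul_inv_cancel]
  exact one_mem _

theorem d_le (hg : GPOut adj w) (hp : PreOut w) {T : Set L} (hT : Clq adj T) (hf : T.Finite)
    {x y : GP adj H} (h : y * x⁻¹ ∈ Par adj H T) : w.d x y ≤ T.ncard := by
  let _ : Fintype T := hf.fintype
  obtain ⟨ψ, -, h2, h3⟩ := hg.clique T Subtype.val Subtype.val_injective (by simpa using hT)
  rw [Subtype.range_coe, SetLike.ext_iff] at h3
  obtain ⟨a, ha⟩ := (h3 _).2 h
  have h4 := h2 (Multiplicative.toAdd a)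
  rw [ofAdd_toAdd, ha, ← hp.d_mul _ _ x, one_mul, inv_mul_cancel_right] at h4
  rw [h4, ← Nat.card_coe_set_eq, Nat.card_eq_fintype_card]
  exact hammingNorm_le_card_fintype

theorem par_finite [Finite H] (hg : GPOut adj w) {T : Set L} (hT : Clq adj T) (hf : T.Finite) :
    Finite (Par adj H T) := by
  let _ : Fintype T := hf.fintype
  obtain ⟨ψ, -, -, h3⟩ := hg.clique T Subtype.val Subtype.val_injective (by simpa using hT)
  rw [Subtype.range_coe] at h3
  rw [← h3]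
  exact Finite.of_surjective _ ψ.rangeRestrict_surjective

theorem wall_lmp (f : L) (a : H) (x : GP adj H) :
    wall adj f (lmp adj f a * x) = wall adj f x := by
  unfold wall
  congr 1
  refine (Quotient.sound (QuotientGroup.rightRel_apply.2 ?_)).symm
  rw [mul_inv_cancel_right]
  exact lmp_mem (T := star adj f) (Or.inl rfl) a

end Gen

section WSp

variable {X J : Type} {C : Type 1} [Group X] {w : WS X J C}

theorem pi_self (hp : PreOut w.toPreWS) {B : C} {x : X} (hx : x ∈ w.cell B) : w.π B x = x := by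
  have h := (w.π_gate B x).2 x hx
  rw [(hp.d_zero x x).2 rfl] at h
  exact ((hp.d_zero _ _).1 (by omega)).symm

theorem run_self (hp : PreOut w.toPreWS) {B : C} {x : X} (hx : x ∈ w.cell B) (Q : C) :
    w.run Q (w.π B x) x = 0 := by
  rw [pi_self hp hx]
  exact (hp.d_zero _ _).2 rfl

theorem good_cell (hp : PreOut w.toPreWS) {B : C} {x : X} (hx : x ∈ w.cell B) : w.Good B x := by
  intro Q k _
  rw [run_self hp hx]
  omega

end WSp

variable {P : Prm} {F : Set (Cell P)} {w : WS (PP F) (Wall (adj F) (ZMod P.h)) (PC F)}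

theorem ex_pcl (Q : PC F) : ∃ c hc δ q, Q = pcl F c hc δ q := by
  obtain ⟨⟨c, E, T⟩, hc, δ, q, hE, hT⟩ := Q
  refine ⟨c, hc, δ, q, ?_⟩
  dsimp only at hE hT
  subst hE hT
  rfl

theorem mkN_eq_one {x : PP F} : mkN F x = 1 ↔ x ∈ KP F := QuotientGroup.eq_one_iff x

theorem cwd_mem (hG : Gam1 F) {c : Cell P} (hc : c ∈ F) (δ : Gam F)
    (a : (c.V × Fin P.j) × ZMod 2 → ZMod P.h) :
    cwd F c δ a ∈ Par (adj F) (ZMod P.h) (EP F c δ) := by
  unfold cwd prodL
  apply Subgroup.list_prod_mem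
  intro x hx
  simp only [List.mem_map] at hx
  obtain ⟨_, ⟨e, -, rfl⟩, rfl⟩ := hx
  exact lmp_mem (hG.ed_mem c hc δ e) _

theorem ker (hG : Gam1 F) (hw : PInst w) {c : Cell P} (hc : c ∈ F) (δ : Gam F)
    (a : (c.V × Fin P.j) × ZMod 2 → ZMod P.h) :
    mkN F (cwd F c δ a) = 1 ↔ ∀ e, (fun v => a (v, e)) ∈ c.W := by
  rw [mkN_eq_one]
  refine ⟨fun h => ?_, fun h => Subgroup.subset_normalClosure ⟨c, hc, δ, a, h, rfl⟩⟩
  have m1 : (1 : PP F) ∈ w.cell (pcl F c hc δ 1) := by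
    rw [hw.cell_eq]
    exact self_mem _ _
  have m2 : 1 * cwd F c δ a ∈ w.cell (pcl F c hc δ 1) := by
    rw [hw.cell_eq]
    change 1 * cwd F c δ a * 1⁻¹ ∈ Par (adj F) (ZMod P.h) (EP F c δ)
    simpa using cwd_mem hG hc δ a
  rcases hw.out.first _ 1 _ (hw.KK_eq ▸ h) (good_cell hw.pre m1) (good_cell hw.pre m2) with
    h1 | ⟨Q, h1, -⟩
  · obtain ⟨b, hb, e⟩ := (hw.K_iff _ _ _ _ _).1 h1
    have e1 : cwd F c δ a = cwd F c δ b := by simpa using e
    have e2 := hw.cwd_add c hc δ (a - b) b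
    rw [sub_add_cancel, e1] at e2
    have e3 : cwd F c δ (a - b) = 1 := by simpa using e2.symm
    have e4 := hw.cwd_d c hc δ (a - b)
    rw [e3, (hw.pre.d_zero _ _).2 rfl] at e4
    have e5 : a = b := sub_eq_zero.1 (hammingNorm_eq_zero.1 e4.symm)
    rw [e5]
    exact hb
  · unfold WS.Heavy at h1
    rw [run_self hw.pre m1] at h1
    have := w.big Q
    have := w.θ_pos Q
    omega

/-- The lamps of one slot at one site. -/
def site (F : Set (Cell P)) (γ : Gam F) (i : Fin P.j) : Set (Lm F) :=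
  {f | f.1 = γ ∧ P.slot f.2 = i}

theorem site_triv (hG : Gam1 F) (hw : PInst w) (γ : Gam F) (i : Fin P.j) {k : PP F}
    (h1 : k ∈ Par (adj F) (ZMod P.h) (site F γ i)) (h2 : k ∈ KP F) : k = 1 := by
  by_contra hk
  obtain ⟨Q, κ, hκ, hκ1, hd⟩ := hw.out.green k (hw.KK_eq ▸ h2) hk 1
  rw [one_mul] at hd
  have a1 := w.disp Q κ _ hκ hκ1 (w.π_gate Q 1).1
  have a2 := hw.pre.d_tri (w.π Q 1) (w.π Q k) (w.π Q 1 * κ)
  have a3 := w.big Q
  have a4 := w.θ_pos Q
  have g1 := w.π_gate Q 1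
  have g2 := w.π_gate Q k
  obtain ⟨c, hc, δ, q, rfl⟩ := ex_pcl Q
  have a5 : w.d (w.π (pcl F c hc δ q) k) (w.π (pcl F c hc δ q) 1) ≤
      (site F γ i ∩ EP F c δ).ncard := by
    refine d_le hw.gp hw.pre (fun f hf f' hf' => hG.clq c hc δ f hf.2 f' hf'.2)
      ((hG.EP_fin c hc δ).1.inter_of_right _) ((hw.gp.supp _ _ _).2 fun a ha => ?_)
    obtain ⟨b1, b2⟩ := (hw.pre.gate_W _ _ _ _ _ g1 g2 a).1 ha
    rw [hw.cell_eq] at b2
    exact ⟨(hw.gp.supp _ 1 k).1 (by simpa using h1) a b1, ((hw.gp.cross _ q a).1 b2).1⟩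
  have a6 : (site F γ i ∩ EP F c δ).ncard ≤ 1 := by
    rw [Set.ncard_le_one ((hG.EP_fin c hc δ).1.inter_of_right _)]
    rintro ⟨γ1, s⟩ ⟨⟨rfl, b1⟩, b2⟩ ⟨γ2, s'⟩ ⟨⟨b0, b3⟩, b4⟩
    dsimp only at b0 b1 b3
    subst b0
    rw [hG.EP_slot c hc δ _ s s' b2 b4 (b1.trans b3.symm)]
  rw [hw.pre.d_comm] at a5
  omega

theorem free (hG : Gam1 F) (hw : PInst w) (γ : Gam F) (i : Fin P.j) :
    ∃ Pa : P.S → Set (NN F),
      (∀ s n t, P.slot s = i → n ∈ Pa s → lampN F (γ, s) t * n ∈ Pa s → t = 0) ∧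
      ∀ n s s', P.slot s = i → P.slot s' = i → n ∉ Pa s → n ∉ Pa s' → s = s' := by
  let U : Subgroup (NN F) := (Par (adj F) (ZMod P.h) (site F γ i)).map (mkN F)
  let rep : NN F → NN F := fun n => (Quotient.mk (QuotientGroup.rightRel U) n).out
  have r1 : ∀ n, n * (rep n)⁻¹ ∈ U := fun n =>
    QuotientGroup.rightRel_apply.1 (Quotient.exact (Quotient.out_eq
      (Quotient.mk (QuotientGroup.rightRel U) n)))
  have r2 : ∀ u ∈ U, ∀ n, rep (u * n) = rep n := by
    intro u hu n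
    have : Quotient.mk (QuotientGroup.rightRel U) n =
        Quotient.mk (QuotientGroup.rightRel U) (u * n) :=
      Quotient.sound (QuotientGroup.rightRel_apply.2 (by simpa using hu))
    simp only [rep, this]
  refine ⟨fun s => {n | ∀ u ∈ Par (adj F) (ZMod P.h) (site F γ i), mkN F u = n * (rep n)⁻¹ →
    wall (adj F) (γ, s) u ∉ w.W u 1}, ?_, ?_⟩
  · intro s n t hs h1 h2
    by_contra ht
    obtain ⟨u, hu, eu⟩ := r1 n
    have hl : lmp (adj F) (γ, s) t ∈ Par (adj F) (ZMod P.h) (site F γ i) :=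
      lmp_mem (T := site F γ i) (f := (γ, s)) ⟨rfl, hs⟩ t
    have b1 := h1 u hu eu
    have b2 := h2 (lmp (adj F) (γ, s) t * u) (mul_mem hl hu) (by
      rw [r2 (lampN F (γ, s) t) ⟨_, hl, rfl⟩, map_mul, eu, ← mul_assoc]
      rfl)
    rw [wall_lmp] at b2
    have b3 : wall (adj F) (γ, s) u ∈ w.W u (lmp (adj F) (γ, s) t * u) := by
      rw [hw.gp.W_lmp _ _ _ ht]
      exact Finset.mem_singleton_self _
    rw [w.mem_W] at b1 b2 b3
    exact b3 ((not_not.1 b1).trans (not_not.1 b2).symm)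
  · intro n s s' hs hs' h1 h2
    simp only [Set.mem_ofPred_eq, not_forall, not_not] at h1 h2
    obtain ⟨u, hu, eu, b1⟩ := h1
    obtain ⟨u', hu', eu', b2⟩ := h2
    have e : u' * u⁻¹ = 1 := site_triv hG hw γ i (mul_mem hu' (inv_mem hu))
      (mkN_eq_one.1 (by rw [map_mul, map_inv, eu, eu', mul_inv_cancel]))
    rw [mul_inv_eq_one.1 e] at b2
    by_contra hne
    refine hw.gp.comm u 1 _ _ b1 b2 (by rw [hw.gp.car_eq]; exact self_mem _ _)
      (by rw [hw.gp.car_eq]; exact self_mem _ _) (fun h => hne ?_)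
      (Or.inl ⟨rfl, hs.trans hs'.symm⟩)
    exact congrArg (fun a : Wall (adj F) (ZMod P.h) => a.1.2) h

end Nf

theorem pNF (h1 : StPW) (h2 : StGam1) (_h3 : StNum) : StNF := by
  intro P F hA
  obtain ⟨w, hw⟩ := h1 P F hA
  have hG := h2 P F hA
  have : Fact P.h.Prime := ⟨hA.prime⟩
  refine ⟨fun f a b => ?_, Nf.free hG hw, fun c hc => Nf.ker hG hw hc, fun c hc => ?_⟩
  · unfold lampN
    rw [hw.gp.lmp_add, map_mul]
  · have := Nf.par_finite hw.gp (hG.clq c hc 1) (hG.EP_fin c hc 1).1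
    exact Finite.of_surjective _ ((mkN F).subgroupMap_surjective _)

end Pool.Agent.P.MP_9167e9_an
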